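import Pool.Agent.MP_dfda4f_nt.h19.QMain
import Pool.Agent.MP_dfda4f_nt.wl.Sparse

/-! Descent of the lifted trinomial to `GF(2)`. -/

namespace Pool.Agent.MP_dfda4f_nt.Q4
open Polynomial

lemma bin_monic {a : ℕ} (ha : 1 < a) :
    (X ^ a + X : (ZMod 2)[X]).Monic ∧ (X ^ a + X : (ZMod 2)[X]).natDegree = a := by
  have hlt : (X : (ZMod 2)[X]).degree < (X ^ a : (ZMod 2)[X]).degree := by
    rw [degree_X, degree_X_pow]; exact_mod_cast ha
  exact ⟨(monic_X_pow a).add_of_left hlt,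
    by rw [natDegree_add_eq_left_of_degree_lt hlt, natDegree_X_pow]⟩

theorem down {F K : Type} [Field F] [Fintype F] [Field K] [Algebra F K] [IsAlgClosed K]
    [Algebra.IsAlgebraic F K] [CharP K 2] [Algebra (ZMod 2) K] (e k M : ℕ) (he : 0 < e)
    (hk : 1 ≤ k) (hF : Fintype.card F = 2 ^ e) (hM1 : 1 < M)
    (hM : (2 ^ e - 1) * M = (2 ^ e) ^ (2 * k + 1) - 1) (θ : K)
    (hθ : orderOf θ = 2 ^ (e * (2 * k + 1)) - 1)
    (hc : (θ ^ (2 * k + 1) + θ) ^ 2 ^ e = θ ^ (2 * k + 1) + θ) :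
    ∃ g : (ZMod 2)[X], g.natDegree = e ∧ Irreducible (g.comp (X ^ M + X)) ∧
      g.comp (X ^ M + X) ∣ X ^ (2 ^ e * M - 1) + X ^ (M - 1) + X ^ (2 ^ e - 1) + 1 ∧
      ∀ t, 0 < t → t < 2 ^ (2 ^ e) ^ k → ¬ g.comp (X ^ M + X) ∣ X ^ t + 1 := by
  obtain ⟨z, hz⟩ : ∃ z, z = θ ^ (2 * k + 1) + θ := ⟨_, rfl⟩
  have hint : ∀ w : K, IsIntegral F w := fun w => Algebra.IsIntegral.isIntegral w
  have hq1 : 1 < 2 ^ e := Nat.one_lt_two_pow he.ne'
  rw [← hz] at hc
  obtain ⟨c, hcz⟩ : z ∈ (algebraMap F K).range := by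
    rw [← minpoly.natDegree_eq_one_iff, ← Nat.dvd_one, fix_iff (hint z), pow_one, hF, hc]
  obtain ⟨u, hu, hdu, hou⟩ := lift (F := F) θ k M hk (by rw [hF, hM])
    (by rw [hF, hθ, pow_mul]) c (by rw [hcz, ← hz, CharTwo.add_self_eq_zero])
  rw [hcz, CharTwo.add_eq_zero] at hu
  have hd := (Wl.poly8 _ (Nat.mul_pos he (by omega)) θ hθ).1
  have hiθ : IsIntegral (ZMod 2) θ := by
    by_contra h
    rw [minpoly.eq_zero h, natDegree_zero] at hd
    exact (Nat.mul_pos he (by omega)).ne hd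
  have hiz : IsIntegral (ZMod 2) z := hz ▸ (hiθ.pow _).add hiθ
  have hg : (minpoly (ZMod 2) z).natDegree = e := by
    obtain ⟨m1, m2⟩ := bin_monic (a := 2 * k + 1) (by omega)
    have h1 : (minpoly (ZMod 2) z).natDegree ∣ e := by
      rw [fix_iff hiz, ZMod.card, hc]
    have h2 := natDegree_le_of_dvd (minpoly.dvd (ZMod 2) θ
      (p := (minpoly (ZMod 2) z).comp (X ^ (2 * k + 1) + X)) (by simp [aeval_comp, ← hz]))
      ((minpoly.monic hiz).comp m1 (by omega)).ne_zero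
    rw [natDegree_comp, m2, hd] at h2
    exact le_antisymm (Nat.le_of_dvd he h1) (Nat.le_of_mul_le_mul_right h2 (by omega))
  obtain ⟨m1, m2⟩ := bin_monic hM1
  have hfm : ((minpoly (ZMod 2) z).comp (X ^ M + X)).Monic :=
    (minpoly.monic hiz).comp m1 (by omega)
  have hf0 : aeval u ((minpoly (ZMod 2) z).comp (X ^ M + X)) = 0 := by
    simp [aeval_comp, hu]
  have hiu : IsIntegral (ZMod 2) u := ⟨_, hfm, by rw [← aeval_def, hf0]⟩
  have hD : e * M ≤ (minpoly (ZMod 2) u).natDegree := by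
    have hpos := minpoly.natDegree_pos hiu
    have h3 := (fix_iff hiu _).1 dvd_rfl
    rw [ZMod.card] at h3
    have h4 : (minpoly (ZMod 2) z).natDegree ∣ (minpoly (ZMod 2) u).natDegree := by
      rw [fix_iff hiz, ZMod.card, ← hu, add_pow_char_pow, ← pow_mul, mul_comm, pow_mul, h3]
    rw [hg] at h4
    obtain ⟨m, hm⟩ := h4
    rw [hm] at h3 hpos ⊢
    have h5 : (minpoly F u).natDegree ∣ m := by
      rw [fix_iff (hint u), hF, ← pow_mul, h3]
    exact Nat.mul_le_mul_left _ (hdu.trans (Nat.le_of_dvd (Nat.pos_of_mul_pos_left hpos) h5))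
  have hf : (minpoly (ZMod 2) z).comp (X ^ M + X) = minpoly (ZMod 2) u :=
    eq_of_monic_of_dvd_of_natDegree_le (minpoly.monic hiu) hfm (minpoly.dvd _ _ hf0)
      (by rw [natDegree_comp, m2, hg]; exact hD)
  have hu0 : u ≠ 0 := by
    rintro rfl
    rw [minpoly.zero, natDegree_X] at hdu
    omega
  refine ⟨_, hg, hf ▸ minpoly.irreducible hiu, ?_, fun t ht hlt h => ?_⟩
  · rw [hf]
    apply minpoly.dvd
    apply mul_left_cancel₀ hu0
    simp only [map_add, map_pow, aeval_X, map_one, mul_add, mul_one, mul_zero]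
    rw [pow_pred (Nat.mul_pos (by omega) (by omega)), pow_pred (by omega), pow_pred (by omega)]
    have h6 : u ^ (2 ^ e * M) + u ^ 2 ^ e = z := by
      rw [← hc, ← hu, add_pow_char_pow, ← pow_mul, mul_comm]
    rw [show u ^ (2 ^ e * M) + u ^ M + u ^ 2 ^ e + u = (u ^ (2 ^ e * M) + u ^ 2 ^ e) + (u ^ M + u)
      by ring, h6, hu, CharTwo.add_self_eq_zero]
  · have h7 := aeval_eq_zero_of_dvd_aeval_eq_zero h hf0
    simp only [map_add, map_pow, aeval_X, map_one] at h7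
    have := hou t ht (CharTwo.add_eq_zero.1 h7)
    rw [hF] at this
    omega

end Pool.Agent.MP_dfda4f_nt.Q4
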