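import Mathlib

/-! Linearized associates over a finite field `F` with `q` elements (port of `Lift` from `q = 2`). -/

namespace Pool.Agent.MP_dfda4f_nt.Q4
open Polynomial

variable {F K : Type} [Field F] [Fintype F] [Field K] [Algebra F K]

/-- The linearized associate: `X^i` goes to `X^(q^i)`. -/
noncomputable def lin : F[X] →ₗ[F] F[X] := lsum fun i => monomial (Fintype.card F ^ i)

lemma lin_monomial (i : ℕ) (a : F) : lin (monomial i a) = monomial (Fintype.card F ^ i) a := by
  simp [lin, lsum_apply, sum_monomial_index]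

lemma lin_coeff (A : F[X]) (i : ℕ) : (lin A).coeff (Fintype.card F ^ i) = A.coeff i := by
  induction A using Polynomial.induction_on' with
  | add p q hp hq => simp [hp, hq]
  | monomial j a =>
    rw [lin_monomial, coeff_monomial, coeff_monomial]
    simp [(Nat.pow_right_injective (Fintype.one_lt_card (α := F))).eq_iff]

lemma lin_coeff_zero (A : F[X]) : (lin A).coeff 0 = 0 := by
  induction A using Polynomial.induction_on' with
  | add p q hp hq => simp [hp, hq]
  | monomial j a =>
    rw [lin_monomial, coeff_monomial, if_neg (pow_pos Fintype.card_pos _).ne']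

lemma lin_natDegree_le (A : F[X]) : (lin A).natDegree ≤ Fintype.card F ^ A.natDegree := by
  rw [lin, lsum_apply, sum_def]
  refine natDegree_sum_le_of_forall_le _ _ fun i hi => (natDegree_monomial_le _).trans ?_
  exact Nat.pow_le_pow_right Fintype.card_pos (le_natDegree_of_mem_supp i hi)

lemma lin_divX (A : F[X]) : X * (lin A).divX = lin A := by
  have := X_mul_divX_add (lin A)
  rwa [lin_coeff_zero, C_0, add_zero] at this

variable (F K) in
/-- Frobenius as a linear endomorphism. -/
noncomputable def fr : Module.End F K := (FiniteField.frobeniusAlgHom F K).toLinearMap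

lemma fr_pow (i : ℕ) (v : K) : (fr F K ^ i) v = v ^ Fintype.card F ^ i := by
  induction i with
  | zero => simp
  | succ i ih =>
    rw [pow_succ', Module.End.mul_apply, ih]
    simp [fr, pow_succ, pow_mul]

/-- The action of `F[X]` on `K` through Frobenius. -/
noncomputable def act (A : F[X]) (v : K) : K := aeval (fr F K) A v

lemma act_mul (A B : F[X]) (v : K) : act (A * B) v = act A (act B v) := by
  simp [act]

lemma act_comm (A B : F[X]) (v : K) : act A (act B v) = act B (act A v) := by
  rw [← act_mul, mul_comm, act_mul]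

lemma act_zero (A : F[X]) : act A (0 : K) = 0 := by simp [act]

lemma act_add (A : F[X]) (v w : K) : act A (v + w) = act A v + act A w := by simp [act]

lemma add_act (A B : F[X]) (v : K) : act (A + B) v = act A v + act B v := by simp [act]

lemma sub_act (A B : F[X]) (v : K) : act (A - B) v = act A v - act B v := by simp [act]

lemma one_act (v : K) : act (1 : F[X]) v = v := by simp [act]

lemma X_pow_act (i : ℕ) (v : K) : act (X ^ i : F[X]) v = v ^ Fintype.card F ^ i := by
  simp [act, fr_pow]

lemma C_act (a : F) (v : K) : act (C a) v = algebraMap F K a * v := by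
  simp [act, Algebra.smul_def]

lemma act_eq (A : F[X]) (v : K) : act A v = aeval v (lin A) := by
  induction A using Polynomial.induction_on' with
  | add p q hp hq => rw [add_act, hp, hq, map_add, map_add]
  | monomial j a =>
    rw [lin_monomial, aeval_monomial, act, aeval_monomial, Module.End.mul_apply, fr_pow,
      Module.algebraMap_end_apply, Algebra.smul_def]

lemma act_div (A : F[X]) (v : K) : act A v = v * aeval v (lin A).divX := by
  rw [act_eq]
  conv_lhs => rw [← lin_divX A]
  rw [map_mul, aeval_X]

variable [IsAlgClosed K]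

lemma act_surj {p : F[X]} (hp : p ≠ 0) (w : K) : ∃ u, act p u = w := by
  have h : ((lin p).map (algebraMap F K) - C w).degree ≠ 0 := by
    intro h
    have h0 : 0 < Fintype.card F ^ p.natDegree := pow_pos Fintype.card_pos _
    have h2 := coeff_eq_zero_of_natDegree_lt (p := (lin p).map (algebraMap F K) - C w)
      (n := Fintype.card F ^ p.natDegree) (by rw [natDegree_eq_of_degree_eq_some h]; exact h0)
    rw [coeff_sub, coeff_map, lin_coeff, coeff_C, if_neg h0.ne', sub_zero,
      map_eq_zero, coeff_natDegree, leadingCoeff_eq_zero] at h2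
    exact hp h2
  obtain ⟨u, hu⟩ := IsAlgClosed.exists_root _ h
  refine ⟨u, ?_⟩
  rw [IsRoot.def, eval_sub, eval_C, eval_map_algebraMap, sub_eq_zero] at hu
  rw [act_eq, hu]

variable (K) in
lemma act_root {p : F[X]} (hd : 0 < p.natDegree) (h0 : p.coeff 0 ≠ 0) :
    ∃ w : K, w ≠ 0 ∧ act p w = 0 := by
  have hp : p ≠ 0 := by rintro rfl; simp at h0
  have h1 : 1 < Fintype.card F ^ p.natDegree := Nat.one_lt_pow hd.ne' Fintype.one_lt_card
  have h : ((lin p).divX).degree ≠ 0 := by
    intro h
    have h2 := coeff_eq_zero_of_natDegree_lt (p := (lin p).divX)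
      (n := Fintype.card F ^ p.natDegree - 1)
      (by rw [natDegree_eq_zero_iff_degree_le_zero.2 h.le]; omega)
    rw [coeff_divX, Nat.sub_add_cancel (by omega), lin_coeff, coeff_natDegree,
      leadingCoeff_eq_zero] at h2
    exact hp h2
  obtain ⟨u, hu⟩ := IsAlgClosed.exists_aeval_eq_zero K _ h
  refine ⟨u, ?_, ?_⟩
  · rintro rfl
    rw [← coeff_zero_eq_aeval_zero', coeff_divX, map_eq_zero] at hu
    have := lin_coeff p 0
    rw [pow_zero] at this
    exact h0 (this ▸ hu)
  · rw [act_div, hu, mul_zero]

variable (K) in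
/-- A generator of the module of roots of the linearized associate. -/
lemma exists_gen (A : F[X]) : A.coeff 0 ≠ 0 → ∃ v : K, ∀ B, act B v = 0 ↔ A ∣ B := by
  induction A using WfDvdMonoid.induction_on_irreducible with
  | zero => simp
  | unit u hu => exact fun _ => ⟨0, fun B => by simp [act_zero, hu.dvd]⟩
  | mul a p ha hp ih =>
    intro h0
    rw [mul_coeff_zero] at h0
    obtain ⟨v, hv⟩ := ih (right_ne_zero_of_mul h0)
    have hav : act a v = 0 := (hv a).2 dvd_rfl
    by_cases hpa : p ∣ a
    · obtain ⟨u, hu⟩ := act_surj hp.ne_zero v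
      refine ⟨u, fun B => ⟨fun hB => ?_, ?_⟩⟩
      · have h1 : a ∣ B := (hv B).1 (by rw [← hu, act_comm, hB, act_zero])
        obtain ⟨B', rfl⟩ := hpa.trans h1
        rw [act_mul, act_comm, hu] at hB
        exact mul_dvd_mul_left _ ((hv B').1 hB)
      · rintro ⟨c, rfl⟩
        rw [show p * a * c = c * (a * p) by ring, act_mul, act_mul, hu, hav, act_zero]
    · obtain ⟨w, hw0, hw⟩ := act_root K hp.natDegree_pos (left_ne_zero_of_mul h0)
      have hco : IsCoprime p a := hp.coprime_iff_not_dvd.2 hpa
      refine ⟨v + w, fun B => ⟨fun hB => ?_, ?_⟩⟩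
      · rw [act_add] at hB
        have h1 : act (p * B) v = 0 := by
          have := congrArg (act p) hB
          rwa [act_add, act_comm p B w, hw, act_zero, act_zero, add_zero, ← act_mul] at this
        have h2 : a ∣ B := hco.symm.dvd_of_dvd_mul_left ((hv _).1 h1)
        rw [(hv B).2 h2, zero_add] at hB
        have h3 : p ∣ B := by
          by_contra h3
          obtain ⟨x, y, hxy⟩ := hp.coprime_iff_not_dvd.2 h3
          apply hw0
          rw [← one_act (F := F) w, ← hxy, add_act, act_mul, act_mul, hw, hB, act_zero, act_zero,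
            add_zero]
        exact hco.mul_dvd h3 h2
      · rintro ⟨c, rfl⟩
        rw [act_add, show p * a * c = (c * p) * a by ring, act_mul, hav, act_zero,
          show c * p * a = (c * a) * p by ring, act_mul, hw, act_zero, add_zero]

omit [IsAlgClosed K]

open Classical in
/-- The family of the `q^k` monic polynomials of degree `k+1` with constant term `1`. -/
noncomputable def fam (k : ℕ) (c : Fin k → F) : F[X] := X ^ (k + 1) + (X * ofFn k c + 1)

omit [Fintype F] in
open Classical in
lemma fam_low (k : ℕ) (c : Fin k → F) : (X * ofFn k c + 1 : F[X]).degree < (k + 1 : ℕ) := by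
  rw [degree_lt_iff_coeff_zero]
  intro m hm
  obtain ⟨m, rfl⟩ : ∃ m', m = m' + 1 := ⟨m - 1, by omega⟩
  rw [coeff_add, coeff_X_mul, ofFn_coeff_eq_zero_of_ge _ (by omega), coeff_one]
  simp

omit [Fintype F] in
lemma fam_monic (k : ℕ) (c : Fin k → F) : (fam k c).Monic := monic_X_pow_add (fam_low k c)

omit [Fintype F] in
lemma fam_natDegree (k : ℕ) (c : Fin k → F) : (fam k c).natDegree = k + 1 := by
  apply natDegree_eq_of_degree_eq_some
  rw [fam, degree_add_eq_left_of_degree_lt (by rw [degree_X_pow]; exact fam_low k c), degree_X_pow]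

omit [Fintype F] in
lemma fam_coeff_zero (k : ℕ) (c : Fin k → F) : (fam k c).coeff 0 ≠ 0 := by
  simp [fam, coeff_X_pow]

omit [Fintype F] in
lemma fam_inj (k : ℕ) : Function.Injective (fam (F := F) k) := by
  classical
  intro c d h
  simp only [fam, add_right_inj, add_left_inj] at h
  exact injective_ofFn k (by convert mul_left_cancel₀ X_ne_zero h)

variable (K) in
lemma prod_sub [IsAlgClosed K] {k : ℕ} {S T : Finset (Fin k → F)}
    (h : ∏ c ∈ S, (lin (fam k c)).divX = ∏ c ∈ T, (lin (fam k c)).divX) : S ⊆ T := by
  intro c hc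
  obtain ⟨v, hv⟩ := exists_gen K _ (fam_coeff_zero k c)
  have hv0 : v ≠ 0 := by
    rintro rfl
    have h1 := natDegree_le_of_dvd ((hv 1).1 (act_zero _)) one_ne_zero
    rw [fam_natDegree, natDegree_one] at h1
    omega
  have h1 : aeval v (∏ c ∈ T, (lin (fam k c)).divX) = 0 := by
    rw [← h, map_prod]
    refine Finset.prod_eq_zero hc ?_
    have := (hv _).2 dvd_rfl
    rw [act_div] at this
    exact (mul_eq_zero.1 this).resolve_left hv0
  rw [map_prod, Finset.prod_eq_zero_iff] at h1
  obtain ⟨d, hd, h2⟩ := h1
  have h3 : act (fam k d) v = 0 := by rw [act_div, h2, mul_zero]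
  rw [hv] at h3
  have := eq_of_monic_of_dvd_of_natDegree_le (fam_monic k c) (fam_monic k d) h3
    (by rw [fam_natDegree, fam_natDegree])
  rwa [← fam_inj k this]

lemma prod_deg {k : ℕ} (S : Finset (Fin k → F)) :
    (∏ c ∈ S, (lin (fam k c)).divX).natDegree ≤
      Fintype.card F ^ k * (Fintype.card F ^ (k + 1) - 1) := by
  classical
  refine (natDegree_prod_le _ _).trans ?_
  refine (Finset.sum_le_card_nsmul _ _ (Fintype.card F ^ (k + 1) - 1) fun c _ => ?_).trans ?_
  · rw [natDegree_divX_eq_natDegree_tsub_one]
    have := lin_natDegree_le (fam k c)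
    rw [fam_natDegree] at this
    omega
  · have : S.card ≤ Fintype.card F ^ k := by simpa using S.card_le_univ
    exact Nat.mul_le_mul_right _ this

/-- Counting lemma: subset products of the quotients `(A x) / x` are distinct roots of unity. -/
lemma count [IsAlgClosed K] {x : K} {k t : ℕ} (ht : 0 < t)
    (hd : Fintype.card F ^ k * (Fintype.card F ^ (k + 1) - 1) < (minpoly F x).natDegree)
    (hw : ∀ c : Fin k → F, (aeval x (lin (fam k c)).divX) ^ t = 1) :
    2 ^ Fintype.card F ^ k ≤ t := by
  classical
  have key : ∀ p : F[X], p.natDegree ≤ Fintype.card F ^ k * (Fintype.card F ^ (k + 1) - 1) →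
      aeval x p = 0 → p = 0 := by
    intro p hp h
    by_contra hne
    have := natDegree_le_of_dvd (minpoly.dvd F x h) hne
    omega
  have hle := Finset.card_le_card_of_injOn (s := Finset.univ) (t := (nthRoots t (1 : K)).toFinset)
    (fun S : Finset (Fin k → F) => aeval x (∏ c ∈ S, (lin (fam k c)).divX)) (by
      intro S _
      simp only [Finset.mem_coe, Multiset.mem_toFinset, mem_nthRoots ht]
      rw [map_prod, ← Finset.prod_pow]
      exact Finset.prod_eq_one fun c _ => hw c) (by
      intro S _ T _ h
      have h2 := key (∏ c ∈ S, (lin (fam k c)).divX - ∏ c ∈ T, (lin (fam k c)).divX)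
        ((natDegree_sub_le _ _).trans (max_le (prod_deg S) (prod_deg T)))
        (by rw [map_sub, sub_eq_zero]; exact h)
      rw [sub_eq_zero] at h2
      exact Finset.Subset.antisymm (prod_sub K h2) (prod_sub K h2.symm))
  have h3 := (Multiset.toFinset_card_le _).trans (card_nthRoots t (1 : K))
  simp only [Finset.card_univ, Fintype.card_finset, Fintype.card_pi,
    Finset.prod_const, Fintype.card_fin] at hle
  omega

end Pool.Agent.MP_dfda4f_nt.Q4
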