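import Pool.Agent.MP_dfda4f_nt.h19.QLift

/-! The lift of a primitive trinomial `T^n + T + c` over `F` to `u^M + u + c`. -/

namespace Pool.Agent.MP_dfda4f_nt.Q4
open Polynomial

variable {F K : Type} [Field F] [Fintype F] [Field K] [Algebra F K]

lemma fix_iff {z : K} (hz : IsIntegral F z) (m : ℕ) :
    (minpoly F z).natDegree ∣ m ↔ z ^ Fintype.card F ^ m = z := by
  rw [(minpoly.irreducible hz).natDegree_dvd_iff_dvd_X_pow_card_pow_sub_X, minpoly.dvd_iff,
    Nat.card_eq_fintype_card]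
  simp [sub_eq_zero]

lemma frob_pow (n : ℕ) (v : K) :
    (FiniteField.frobeniusAlgHom F K ^ n) v = v ^ Fintype.card F ^ n := by
  induction n with
  | zero => simp
  | succ i ih =>
    rw [pow_succ', AlgHom.mul_apply, ih]
    simp [pow_succ, pow_mul]

lemma aeval_fix {z : K} {n : ℕ} (hz : z ^ Fintype.card F ^ n = z) (A : F[X]) :
    (aeval z A) ^ Fintype.card F ^ n = aeval z A := by
  rw [← frob_pow, ← aeval_algHom_apply, frob_pow, hz]

omit [Algebra F K] in
lemma pow_pred {z : K} {a : ℕ} (ha : 0 < a) : z * z ^ (a - 1) = z ^ a := by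
  rw [← pow_succ', Nat.sub_add_cancel ha]

theorem lift [IsAlgClosed K] [Algebra.IsAlgebraic F K] (θ : K) (k M : ℕ) (hk : 1 ≤ k)
    (hM : (Fintype.card F - 1) * M = Fintype.card F ^ (2 * k + 1) - 1)
    (hθ : orderOf θ = Fintype.card F ^ (2 * k + 1) - 1) (c : F)
    (hc : θ ^ (2 * k + 1) + θ + algebraMap F K c = 0) :
    ∃ u : K, u ^ M + u + algebraMap F K c = 0 ∧ M ≤ (minpoly F u).natDegree ∧
      ∀ t, 0 < t → u ^ t = 1 → 2 ^ Fintype.card F ^ k ≤ t := by
  obtain ⟨q, hq⟩ : ∃ q, q = Fintype.card F := ⟨_, rfl⟩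
  obtain ⟨n, hn⟩ : ∃ n, n = 2 * k + 1 := ⟨_, rfl⟩
  have hq1 : 1 < q := hq ▸ Fintype.one_lt_card
  have hint : ∀ z : K, IsIntegral F z := fun z => Algebra.IsIntegral.isIntegral z
  rw [← hq, ← hn] at hM hθ
  rw [← hn] at hc
  have hqn : 1 < q ^ n := Nat.one_lt_pow (by omega) hq1
  have h1 : θ ^ (q ^ n - 1) = 1 := by rw [← hθ, pow_orderOf_eq_one]
  have hθ0 : θ ≠ 0 := by
    rintro rfl
    rw [zero_pow (by omega)] at h1
    exact zero_ne_one h1
  have hord : ∀ D, 0 < D → θ ^ D = 1 → q ^ n - 1 ≤ D := fun D hD h =>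
    hθ ▸ Nat.le_of_dvd hD (orderOf_dvd_of_pow_eq_one h)
  have hdeg : n ≤ (minpoly F θ).natDegree := by
    have hp := minpoly.natDegree_pos (hint θ)
    have h3 := (fix_iff (hint θ) _).1 dvd_rfl
    rw [← hq] at h3
    have hP : 1 < q ^ (minpoly F θ).natDegree := Nat.one_lt_pow hp.ne' hq1
    have h4 := hord (q ^ (minpoly F θ).natDegree - 1) (by omega) (by
      apply mul_left_cancel₀ hθ0
      rw [pow_pred (by omega), h3, mul_one])
    exact (Nat.pow_le_pow_iff_right hq1).1 (by omega)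
  have hlow : (X + C c : F[X]).degree < (n : ℕ) := by
    rw [degree_X_add_C]
    exact_mod_cast (by omega : 1 < n)
  have hPm : (X ^ n + (X + C c) : F[X]).Monic := monic_X_pow_add hlow
  have hPd : (X ^ n + (X + C c) : F[X]).natDegree = n := by
    apply natDegree_eq_of_degree_eq_some
    rw [degree_add_eq_left_of_degree_lt (by rw [degree_X_pow]; exact hlow), degree_X_pow]
  have hP : (X ^ n + (X + C c) : F[X]) = minpoly F θ :=
    eq_of_monic_of_dvd_of_natDegree_le (minpoly.monic (hint θ)) hPm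
      (minpoly.dvd F θ (by simpa [add_assoc] using hc)) (by omega)
  obtain ⟨x, hx⟩ := exists_gen K (minpoly F θ) (minpoly.coeff_zero_ne_zero (hint θ) hθ0)
  have hx' : ∀ B : F[X], act B x = 0 ↔ aeval θ B = 0 := fun B => by rw [hx, minpoly.dvd_iff]
  have hx0 : x ≠ 0 := by
    rintro rfl
    simpa using (hx' 1).1 (act_zero _)
  have hxe : x ^ q ^ n + x ^ q + algebraMap F K c * x = 0 := by
    have := (hx _).2 dvd_rfl
    rw [← hP, add_act, add_act, X_pow_act, C_act, ← pow_one X, X_pow_act, pow_one, ← hq] at this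
    rw [add_assoc, this]
  have hD : q ^ n - 1 ≤ (minpoly F x).natDegree := by
    refine hord _ (minpoly.natDegree_pos (hint x)) ?_
    have h3 := (fix_iff (hint x) _).1 dvd_rfl
    have h4 := (hx' (X ^ (minpoly F x).natDegree - 1)).1 (by
      rw [sub_act, X_pow_act, one_act, h3, sub_self])
    simpa [sub_eq_zero] using h4
  refine ⟨x ^ (q - 1), ?_, ?_, fun t ht hu => ?_⟩
  · apply mul_left_cancel₀ hx0
    rw [mul_add, mul_add, ← pow_mul, hM, pow_pred (by omega), pow_pred (by omega), mul_zero,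
      mul_comm x, hxe]
  · have hm : ((minpoly F (x ^ (q - 1))).comp (X ^ (q - 1))).Monic :=
      (minpoly.monic (hint _)).comp (monic_X_pow _) (by rw [natDegree_X_pow]; omega)
    have h2 := natDegree_le_of_dvd (minpoly.dvd F x (p := (minpoly F (x ^ (q - 1))).comp
      (X ^ (q - 1))) (by simp [aeval_comp])) hm.ne_zero
    rw [natDegree_comp, natDegree_X_pow] at h2
    have h3 : (q - 1) * M ≤ (q - 1) * (minpoly F (x ^ (q - 1))).natDegree := by
      rw [hM, mul_comm]
      exact hD.trans h2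
    exact Nat.le_of_mul_le_mul_left h3 (Nat.sub_pos_of_lt hq1)
  · refine count (x := x) ht ?_ fun d => ?_
    · rw [← hq]
      have a1 : 1 < q ^ k := Nat.one_lt_pow (by omega) hq1
      have a2 : q ^ k * q ^ (k + 1) = q ^ n := by rw [← pow_add, hn]; congr 1; omega
      rw [Nat.mul_sub_one, a2]
      have a3 : q ^ k ≤ q ^ n := Nat.pow_le_pow_right (by omega) (by omega)
      omega
    · have b0 : aeval θ (fam k d) ≠ 0 := by
        intro h
        have := natDegree_le_of_dvd (minpoly.dvd F θ h) (fam_monic k d).ne_zero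
        rw [fam_natDegree] at this
        omega
      have b1 : (aeval θ (fam k d)) ^ (q ^ n - 1) = 1 := by
        apply mul_left_cancel₀ b0
        rw [pow_pred (by omega), mul_one, hq]
        apply aeval_fix
        rw [← hq, ← pow_pred (by omega), h1, mul_one]
      have hpr : IsPrimitiveRoot θ (q ^ n - 1) := hθ ▸ IsPrimitiveRoot.orderOf θ
      have : NeZero (q ^ n - 1) := ⟨by omega⟩
      obtain ⟨i, -, hi⟩ := hpr.eq_pow_of_pow_eq_one b1
      have b2 := (hx' (fam k d - X ^ i)).2 (by rw [map_sub, ← hi]; simp)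
      rw [sub_act, X_pow_act, act_div, sub_eq_zero, ← hq,
        ← pow_pred (z := x) (pow_pos (by omega) i)] at b2
      obtain ⟨e, he⟩ := Nat.sub_one_dvd_pow_sub_one q i
      rw [mul_left_cancel₀ hx0 b2, he, pow_mul, ← pow_mul _ e, mul_comm e, pow_mul, hu, one_pow]

end Pool.Agent.MP_dfda4f_nt.Q4
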